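import Pool.Agent.Helper80.PR.Core
import Pool.Agent.Helper73.PP.Lat
import Pool.Agent.Helper80.PR.No4

/-!
MP_3976d4_co: maps whose periodic points contain no chain of four elements, or whose points of
period prime to some prime form a thin set; the general theorem for maps with carriers.
-/

set_option autoImplicit false

namespace Pool.Agent.Helper73.PQ

open Filter
open scoped Classical
open Pool.Agent.Helper43.SP
open Pool.Agent.Helper43.SP.FK
open Pool.Agent.Helper73.PP (Carr exact_UP2)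
open Pool.Agent.Helper73.PP2 (Thin thin_pull thin_dual thin_mono em_le_iff prime_thin)

section slim

/-- No four elements of `E` form a chain. -/
def NoFour {P : Type*} [PartialOrder P] (E : Set P) : Prop :=
  ∀ a ∈ E, ∀ b ∈ E, ∀ c ∈ E, ∀ d ∈ E, a < b → b < c → ¬ c < d

variable {P Q : Type*} [PartialOrder P] [PartialOrder Q]

lemma noFour_pull {E : Set P} (h : NoFour E) (D : Set Q) (r : Q → P) (hr : ∀ y ∈ D, r y ∈ E)
    (hle : ∀ y ∈ D, ∀ z ∈ D, (y ≤ z ↔ r y ≤ r z)) : NoFour D := by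
  have hlt : ∀ y ∈ D, ∀ z ∈ D, y < z → r y < r z := by
    intro y hy z hz hyz
    refine lt_of_le_of_ne ((hle y hy z hz).1 hyz.le) ?_
    intro e
    exact hyz.ne (le_antisymm ((hle y hy z hz).2 e.le) ((hle z hz y hy).2 e.ge))
  intro a ha b hb c hc d hd hab hbc hcd
  exact h _ (hr a ha) _ (hr b hb) _ (hr c hc) _ (hr d hd) (hlt a ha b hb hab)
    (hlt b hb c hc hbc) (hlt c hc d hd hcd)

lemma noFour_dual {E : Set P} (h : NoFour E) : NoFour (OrderDual.ofDual ⁻¹' E : Set Pᵒᵈ) := by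
  intro a ha b hb c hc d hd hab hbc hcd
  exact h _ hd _ hc _ hb _ ha hcd hbc hab

/-- The points of `E` of period prime to some prime form a thin set, or no four periodic points of
`E` form a chain. -/
def SlimOn (f : P → P) (E : Set P) : Prop :=
  (∃ p : ℕ, p.Prime ∧ Thin {x : P | x ∈ E ∧ ∃ j : ℕ, ¬ p ∣ j ∧ f^[j] x = x}) ∨
    NoFour {x : P | x ∈ E ∧ ∃ j : ℕ, 0 < j ∧ f^[j] x = x}

lemma slim_pull {f : P → P} {E : Set P} (h : SlimOn f E) (g : Q → Q) (D : Set Q) (r : Q → P)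
    (hr : ∀ y ∈ D, r y ∈ E) (hrj : ∀ y ∈ D, ∀ j, g^[j] y = y → f^[j] (r y) = r y)
    (hle : ∀ y ∈ D, ∀ z ∈ D, (y ≤ z ↔ r y ≤ r z)) : SlimOn g D := by
  rcases h with ⟨p, hp, h⟩ | h
  · refine Or.inl ⟨p, hp, thin_pull h _ r ?_ (fun y hy z hz => hle y hy.1 z hz.1)⟩
    rintro y ⟨hy, j, h1, h2⟩
    exact ⟨hr y hy, j, h1, hrj y hy j h2⟩
  · refine Or.inr (noFour_pull h _ r ?_ (fun y hy z hz => hle y hy.1 z hz.1))
    rintro y ⟨hy, j, h1, h2⟩
    exact ⟨hr y hy, j, h1, hrj y hy j h2⟩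

lemma slim_dual {f : P → P} {E : Set P} (h : SlimOn f E) :
    SlimOn (fun x : Pᵒᵈ => OrderDual.toDual (f (OrderDual.ofDual x)))
      (OrderDual.ofDual ⁻¹' E : Set Pᵒᵈ) := by
  rcases h with ⟨p, hp, h⟩ | h
  · exact Or.inl ⟨p, hp, thin_dual h⟩
  · exact Or.inr (noFour_dual h)

lemma slim_congr {f : P → P} {E D : Set P} (h : SlimOn f E) (hDE : D ⊆ E) : SlimOn f D :=
  slim_pull h f D id (fun _ hy => hDE hy) (fun _ _ _ hj => hj) (fun _ _ _ _ => Iff.rfl)

lemma slim_of_thin {f : P → P} {E : Set P} {p : ℕ} (hp : p.Prime)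
    (h : Thin {x : P | x ∈ E ∧ ∃ j : ℕ, ¬ p ∣ j ∧ f^[j] x = x}) : SlimOn f E := Or.inl ⟨p, hp, h⟩

variable {f : P → P}

/-- The periodic points of the direct limit are the images of the periodic points of `P`. -/
lemma per_rep0 (y : DL f) (h : ∃ j, 0 < j ∧ (FF f)^[j] y = y) :
    ∃ x : P, (∃ j, 0 < j ∧ f^[j] x = x) ∧ em f 0 x = y := by
  obtain ⟨k, hk0, hk⟩ := h
  obtain ⟨n, hn⟩ := eventually_atTop.mp (((rep_FF_iter y k).and (rep_add y k)).and (em_rep y))
  have hi : n ≤ k * n := Nat.le_mul_of_pos_left n hk0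
  obtain ⟨⟨h1, h2⟩, h3⟩ := hn (k * n) hi
  rw [hk] at h1
  have h4 : f^[k] (rep y (k * n)) = rep y (k * n) := by rw [← h2, ← h1]
  refine ⟨rep y (k * n), ⟨k, hk0, h4⟩, Eq.trans ?_ h3⟩
  unfold Pool.Agent.Helper43.SP.em
  apply mk_eq_mk
  refine eventually_atTop.mpr ⟨k * n, fun j hj => ?_⟩
  change f^[j - 0] _ = f^[j - k * n] _
  have h5 : f^[k * n] (rep y (k * n)) = rep y (k * n) := by
    rw [Function.iterate_mul]
    exact Function.iterate_fixed h4 n
  have h6 : j - 0 = (j - k * n) + k * n := by omega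
  rw [h6, Function.iterate_add_apply, h5]

/-- The absence of chains of four periodic points carries over to the direct limit. -/
lemma noFour_DL (hf : Monotone f) (h : NoFour {x : P | ∃ j, 0 < j ∧ f^[j] x = x}) :
    NoFour {y : DL f | ∃ j, 0 < j ∧ (FF f)^[j] y = y} := by
  have hex : ∀ y : DL f, ∃ x : P, (∃ j, 0 < j ∧ (FF f)^[j] y = y) →
      (∃ j, 0 < j ∧ f^[j] x = x) ∧ em f 0 x = y := by
    intro y
    by_cases hy : ∃ j, 0 < j ∧ (FF f)^[j] y = y
    · obtain ⟨x, h1, h2⟩ := per_rep0 y hy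
      exact ⟨x, fun _ => ⟨h1, h2⟩⟩
    · exact ⟨rep y 0, fun h' => absurd h' hy⟩
  choose r hr using hex
  refine noFour_pull h _ r (fun y hy => (hr y hy).1) ?_
  intro y hy z hz
  obtain ⟨⟨j, hj0, hj2⟩, e1⟩ := hr y hy
  obtain ⟨⟨l, hl0, hl2⟩, e2⟩ := hr z hz
  conv_lhs => rw [← e1, ← e2]
  exact em_le_iff hf hj0 hl0 hj2 hl2

end slim

section four

variable {X : Type*} [PartialOrder X]

lemma exists_least' (S : Finset X) (hS : IsChain (· ≤ ·) (S : Set X)) (h : S.Nonempty) :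
    ∃ m ∈ S, ∀ x ∈ S, m ≤ x := by
  obtain ⟨m, hm⟩ := S.exists_minimal h
  refine ⟨m, hm.1, fun x hx => ?_⟩
  rcases eq_or_ne m x with rfl | hne
  · exact le_rfl
  · rcases hS hm.1 hx hne with h | h
    · exact h
    · exact hm.2 hx h

lemma step (S : Finset X) (hS : IsChain (· ≤ ·) (S : Set X)) {n : ℕ} (h : n < S.card) :
    ∃ m ∈ S, ∃ T : Finset X, T ⊆ S ∧ n ≤ T.card ∧ ∀ x ∈ T, m < x := by
  obtain ⟨m, hm, hl⟩ := exists_least' S hS (Finset.card_pos.1 (by omega))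
  refine ⟨m, hm, S.erase m, Finset.erase_subset _ _, ?_, ?_⟩
  · rw [Finset.card_erase_of_mem hm]
    omega
  · intro x hx
    rw [Finset.mem_erase] at hx
    exact lt_of_le_of_ne (hl x hx.2) (Ne.symm hx.1)

/-- A chain with at least four elements. -/
lemma exists_four (S : Ch X) (h : ¬ S.1.card ≤ 3) :
    ∃ a ∈ S.1, ∃ b ∈ S.1, ∃ c ∈ S.1, ∃ d ∈ S.1, a < b ∧ b < c ∧ c < d := by
  obtain ⟨a, ha, T, hT, hTc, hTa⟩ := step S.1 S.2 (n := 3) (by omega)
  have hT' : IsChain (· ≤ ·) (T : Set X) := S.2.mono (Finset.coe_subset.2 hT)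
  obtain ⟨b, hb, U, hU, hUc, hUb⟩ := step T hT' (n := 2) (by omega)
  have hU' : IsChain (· ≤ ·) (U : Set X) := hT'.mono (Finset.coe_subset.2 hU)
  obtain ⟨c, hc, V, hV, hVc, hVc'⟩ := step U hU' (n := 1) (by omega)
  obtain ⟨d, hd⟩ := Finset.card_pos.1 (show 0 < V.card by omega)
  exact ⟨a, ha, b, hT hb, c, hT (hU hc), d, hT (hU (hV hd)), hTa b hb, hUb c hc, hVc' d hd⟩

end four

section carr

noncomputable section

variable {P : Type*} [PartialOrder P]

/-- The theorem for a map with carriers. -/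
theorem main_carr (s : P) (f : P → P) (R Q : Finset P → P) (hc : Carr s f R Q)
    (hn : ∃ n : ℕ, ∀ c : Finset P, IsChain (· ≤ ·) (c : Set P) → c.card ≤ n)
    (hf : Monotone f) (hper : SlimOn f Set.univ) : ∃ x, f x = x := by
  rcases hper with ⟨p, hp, h⟩ | h
  · have h' : Thin {x : P | ∃ j, ¬ p ∣ j ∧ f^[j] x = x} :=
      thin_pull h _ id (fun y hy => ⟨Set.mem_univ _, hy⟩) (fun _ _ _ _ => Iff.rfl)
    have : Fact p.Prime := ⟨hp⟩
    obtain ⟨y, hy⟩ := Helper80.PR.fixed_of_thin (FF f) hp (ZMod p) (finLen_DL hf hn)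
      (exact_UP2 s f R Q hc hf) (prime_thin hf h')
    exact fixed_of_fixed hy
  · have h' : NoFour {x : P | ∃ j, 0 < j ∧ f^[j] x = x} :=
      noFour_pull h _ id (fun y hy => ⟨Set.mem_univ _, hy⟩) (fun _ _ _ _ => Iff.rfl)
    have h'' := noFour_DL hf h'
    obtain ⟨y, hy⟩ := Helper80.PR.fixed_of_no4 (FF f) (finLen_DL hf hn)
      (fun k _ => exact_UP2 s f R Q hc hf) (fun S => by
        by_contra hS
        obtain ⟨a, -, b, -, c, -, d, -, h1, h2, h3⟩ := exists_four S hS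
        exact h'' a.1 a.2 b.1 b.2 c.1 c.2 d.1 d.2 h1 h2 h3)
    exact fixed_of_fixed hy

end

end carr

end Pool.Agent.Helper73.PQ
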