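import Pool.Agent.Helper73.PQ.Base

/-!
MP_3976d4_co: the selection form, maps with a periodic special element, automorphisms, and the final
forms of the theorems on periodic points.
-/

set_option autoImplicit false

universe u

namespace Pool.Agent.Helper73.PQ

open scoped Classical
open Pool.Agent
open Pool.Agent.Helper43.SP (lst lst_spec jn jn_le le_jn_left le_jn_right)
open Pool.Agent.Helper31.FX (CoverTame coverTame_dual coverTame_of_not_hasBoundedRay)
open Pool.Agent.Helper73.PP (selQ filter_spec Fx fx_map fr fr_iter fr_mono fx_fin fx_tame fx_lub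
  iter_lub iter_glb exists_down exists_up auto_eq)
open Pool.Agent.Helper73.PP2 (Thin thin_empty thin_sub thin_dual)

lemma coverTame_of_thin {P : Type u} [PartialOrder P] {E : Set P} (h : Thin E) : CoverTame E := by
  rcases h with h | h
  · refine coverTame_of_not_hasBoundedRay _ ?_
    rintro ⟨v, h1, h2, h3, -⟩
    exact h ⟨v, h1, h2, h3⟩
  · exact Helper98.HX.coverTame_of_no_three _ fun a ha b hb c hc hab => h a ha b hb c hc hab

section sel

noncomputable section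

variable {P : Type*} [PartialOrder P]

theorem main_sel (P : Type*) [PartialOrder P]
    (hfin : ∃ n : ℕ, ∀ c : Finset P, IsChain (· ≤ ·) (c : Set P) → c.card ≤ n) (s : P)
    (f : P → P) (hf : Monotone f)
    (A : Set P) (hA : ∀ x ∈ A, ∃ z : P, IsLUB ({s, f x} : Set P) z)
    (be : P → P) (hbe : ∀ w, w ∉ A → be w ≤ s ∧ be w ≤ f w)
    (hbem : ∀ v w, v ∉ A → w ∉ A → v ≤ w → be v ≤ be w)
    (hj : ∀ x w : P, x < w → x ∈ A → w ∉ A → be w < s → ∃ z : P, IsLUB ({be w, f x} : Set P) z)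
    (hper : SlimOn f Set.univ) : ∃ x : P, f x = x := by
  have hQs : ∀ T : Finset P, IsChain (· ≤ ·) (T : Set P) → selQ s A be T ≤ s := by
    intro T hc
    unfold selQ
    split_ifs with h
    · exact (hbe _ (filter_spec s A hc h).2.1).1
    · exact le_rfl
  have hQa : ∀ T T' : Finset P, IsChain (· ≤ ·) (T : Set P) → T' ⊆ T →
      selQ s A be T ≤ selQ s A be T' := by
    intro T T' hc hsub
    have hc' : IsChain (· ≤ ·) (T' : Set P) := hc.mono (Finset.coe_subset.2 hsub)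
    by_cases h' : (T'.filter (fun x => x ∉ A)).Nonempty
    · have h : (T.filter (fun x => x ∉ A)).Nonempty :=
        h'.mono (Finset.filter_subset_filter _ hsub)
      obtain ⟨-, a2, a3⟩ := filter_spec s A hc h
      obtain ⟨b1, b2, -⟩ := filter_spec s A hc' h'
      unfold selQ
      rw [if_pos h, if_pos h']
      exact hbem _ _ a2 b2 (a3 _ (hsub b1) b2)
    · refine (hQs T hc).trans ?_
      unfold selQ
      rw [if_neg h']
  have hex : ∀ T : Finset P, IsChain (· ≤ ·) (T : Set P) → T.Nonempty →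
      ∃ z : P, IsLUB ({selQ s A be T, f (lst s T)} : Set P) z := by
    intro T hc hne
    obtain ⟨hm, hl⟩ := lst_spec s hc hne
    by_cases hxA : lst s T ∈ A
    · by_cases h : (T.filter (fun x => x ∉ A)).Nonempty
      · obtain ⟨a1, a2, a3⟩ := filter_spec s A hc h
        have e : selQ s A be T = be (lst s (T.filter (fun x => x ∉ A))) := by
          unfold selQ
          rw [if_pos h]
        rw [e]
        rcases (hbe _ a2).1.lt_or_eq with h1 | h1
        · refine hj _ _ (lt_of_le_of_ne (hl _ a1) ?_) hxA a2 h1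
          intro e2
          exact a2 (e2 ▸ hxA)
        · rw [h1]
          exact hA _ hxA
      · have e : selQ s A be T = s := by
          unfold selQ
          rw [if_neg h]
        rw [e]
        exact hA _ hxA
    · have h : (T.filter (fun x => x ∉ A)).Nonempty := ⟨_, Finset.mem_filter.2 ⟨hm, hxA⟩⟩
      obtain ⟨a1, a2, a3⟩ := filter_spec s A hc h
      have h1 : selQ s A be T ≤ f (lst s T) := by
        unfold selQ
        rw [if_pos h]
        exact (hbem _ _ a2 hxA (a3 _ hm hxA)).trans (hbe _ hxA).2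
      refine ⟨f (lst s T), ?_, ?_⟩
      · rintro z (rfl | rfl)
        · exact h1
        · exact le_rfl
      · intro z hz
        exact hz (Set.mem_insert_of_mem _ rfl)
  refine main_carr s f (fun T => jn (selQ s A be T) (f (lst s T))) (selQ s A be)
    ⟨?_, ?_, ?_, ?_, ?_⟩ hfin hf hper
  · intro T T' hc hne hsub
    have hc' : IsChain (· ≤ ·) (T' : Set P) := hc.mono (Finset.coe_subset.2 hsub)
    have e1 := hex T hc (hne.mono hsub)
    have e2 := hex T' hc' hne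
    refine jn_le e1 ((hQa T T' hc hsub).trans (le_jn_left e2)) ?_
    refine (hf ?_).trans (le_jn_right e2)
    exact (lst_spec s hc (hne.mono hsub)).2 _ (hsub (lst_spec s hc' hne).1)
  · intro T T' hc _ hsub
    exact hQa T T' hc hsub
  · intro T hc hne
    exact le_jn_left (hex T hc hne)
  · intro T hc _
    exact hQs T hc
  · intro T hc hne
    exact le_jn_right (hex T hc hne)

/-- The order dual of `main_sel`. -/
theorem main_sel_dual (P : Type*) [PartialOrder P]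
    (hfin : ∃ n : ℕ, ∀ c : Finset P, IsChain (· ≤ ·) (c : Set P) → c.card ≤ n) (s : P)
    (f : P → P) (hf : Monotone f)
    (A : Set P) (hA : ∀ x ∈ A, ∃ z : P, IsGLB ({s, f x} : Set P) z)
    (be : P → P) (hbe : ∀ w, w ∉ A → s ≤ be w ∧ f w ≤ be w)
    (hbem : ∀ v w, v ∉ A → w ∉ A → v ≤ w → be v ≤ be w)
    (hj : ∀ x w : P, w < x → x ∈ A → w ∉ A → s < be w → ∃ z : P, IsGLB ({be w, f x} : Set P) z)
    (hper : SlimOn f Set.univ) : ∃ x : P, f x = x := by
  obtain ⟨n, hn⟩ := hfin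
  exact main_sel Pᵒᵈ ⟨n, fun c hc => hn c (by
    intro a ha b hb hab
    exact (hc ha hb hab).symm)⟩ (OrderDual.toDual s)
    (fun x => OrderDual.toDual (f (OrderDual.ofDual x))) (fun a b hab => hf hab)
    (OrderDual.ofDual ⁻¹' A) (fun x hx => hA (OrderDual.ofDual x) hx)
    (fun x => OrderDual.toDual (be (OrderDual.ofDual x)))
    (fun w hw => hbe (OrderDual.ofDual w) hw)
    (fun v w h1 h2 h3 => hbem (OrderDual.ofDual w) (OrderDual.ofDual v) h2 h1 h3)
    (fun x w h1 h2 h3 h4 => hj (OrderDual.ofDual x) (OrderDual.ofDual w) h1 h2 h3 h4)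
    (slim_dual hper)

end

end sel

section fix

lemma fr_slim {P : Type u} [PartialOrder P] (f : P → P) (m : ℕ)
    (h : SlimOn f {x : P | f^[m] x = x}) : SlimOn (fr f m) (Set.univ : Set (Fx f m)) := by
  refine slim_pull h (fr f m) _ Subtype.val (fun x _ => x.2) ?_ (fun _ _ _ _ => Iff.rfl)
  intro x _ j hj
  rw [← fr_iter, hj]

variable {P : Type u} [PartialOrder P]

/-- The two conclusions: selection data on the points of period dividing `m`. -/
theorem main_fx (hfin : ∃ n : ℕ, ∀ c : Finset P, IsChain (· ≤ ·) (c : Set P) → c.card ≤ n)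
    (f : P → P) (hf : Monotone f) (m : ℕ) (s : Fx f m)
    (A : Set (Fx f m)) (hA : ∀ x ∈ A, ∃ z : Fx f m, IsLUB ({s, fr f m x} : Set (Fx f m)) z)
    (be : Fx f m → Fx f m) (hbe : ∀ w, w ∉ A → be w ≤ s ∧ be w ≤ fr f m w)
    (hbem : ∀ v w, v ∉ A → w ∉ A → v ≤ w → be v ≤ be w)
    (hj : ∀ x w : Fx f m, x < w → x ∈ A → w ∉ A → be w < s →
      ∃ z : Fx f m, IsLUB ({be w, fr f m x} : Set (Fx f m)) z)
    (h : SlimOn f {x : P | f^[m] x = x} ∨
      CoverTame {d : P | d < s.1 ∧ f^[m] d = d}) : ∃ x : P, f x = x := by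
  have key : ∃ x : Fx f m, fr f m x = x := by
    rcases h with hper | ht
    · exact main_sel (Fx f m) (fx_fin hfin f m) s (fr f m) (fr_mono f hf m) A hA be hbe hbem hj
        (fr_slim f m hper)
    · refine Helper73.FX.main_cover3 (Fx f m) (fx_fin hfin f m) s (fr f m) (fr_mono f hf m) A hA be
        hbe hbem hj ?_
      refine Helper73.FX.coverTame_mono ?_ (fx_tame f m _ (fun e he => he.2) ht)
      rintro e ⟨w, _, hw, rfl⟩
      exact ⟨hw, (be w).2⟩
  obtain ⟨x, hx⟩ := key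
  exact ⟨x.1, congrArg Subtype.val hx⟩

end fix

section auto

variable {P : Type u} [PartialOrder P]

/-- Automorphisms `f` of a poset with bounded chains with `f^m s = s`; conditions (i), (ii) only for
the points of period dividing `m`. -/
theorem auto_main (hfin : ∃ n : ℕ, ∀ c : Finset P, IsChain (· ≤ ·) (c : Set P) → c.card ≤ n)
    (f : P ≃o P) (m : ℕ) (s : P) (hs : (⇑f)^[m] s = s)
    (h1 : ∀ x : P, (⇑f)^[m] x = x →
      (∃ z : P, IsLUB ({s, x} : Set P) z) ∨ (∃ z : P, IsGLB ({s, x} : Set P) z))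
    (h2 : ∀ x y : P, x < y → (⇑f)^[m] x = x → (⇑f)^[m] y = y →
      (¬ ∃ z : P, IsGLB ({s, x} : Set P) z) →
      ∀ a : P, IsGLB ({s, y} : Set P) a → ∃ z : P, IsLUB ({a, x} : Set P) z)
    (h : SlimOn (⇑f) {x : P | (⇑f)^[m] x = x} ∨
      CoverTame {d : P | d < s ∧ (⇑f)^[m] d = d}) : ∃ x : P, f x = x := by
  classical
  have hlub : ∀ a b z : P, (⇑f)^[m] a = a → (⇑f)^[m] b = b → IsLUB ({a, b} : Set P) z →
      (⇑f)^[m] z = z := by
    intro a b z ha hb hz
    have h3 := iter_lub f m hz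
    rw [ha, hb] at h3
    exact h3.unique hz
  have hglb : ∀ a b z : P, (⇑f)^[m] a = a → (⇑f)^[m] b = b → IsGLB ({a, b} : Set P) z →
      (⇑f)^[m] z = z := by
    intro a b z ha hb hz
    have h3 := iter_glb f m hz
    rw [ha, hb] at h3
    exact h3.unique hz
  let me : P → P := fun y => if h : ∃ z : P, IsGLB ({s, y} : Set P) z then h.choose else s
  have hme : ∀ y, (∃ z : P, IsGLB ({s, y} : Set P) z) → IsGLB ({s, y} : Set P) (me y) := by
    intro y h
    simp only [me, dif_pos h]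
    exact h.choose_spec
  have hmf : ∀ y, (⇑f)^[m] y = y → (⇑f)^[m] (me y) = me y := by
    intro y hy
    by_cases h : ∃ z : P, IsGLB ({s, y} : Set P) z
    · exact hglb s y _ hs hy (hme y h)
    · simp only [me, dif_neg h]
      exact hs
  have hfx : ∀ x : Fx (⇑f) m, (⇑f)^[m] (f x.1) = f x.1 := fun x => fx_map (⇑f) m x.2
  have hW : ∀ w : Fx (⇑f) m, w ∉ {x : Fx (⇑f) m | ¬ ∃ z : P, IsGLB ({s, f x.1} : Set P) z} →
      ∃ z : P, IsGLB ({s, f w.1} : Set P) z := by
    intro w hw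
    simpa using hw
  refine main_fx hfin (⇑f) f.monotone m ⟨s, hs⟩
    {x : Fx (⇑f) m | ¬ ∃ z : P, IsGLB ({s, f x.1} : Set P) z} ?_
    (fun w => ⟨me (f w.1), hmf _ (hfx w)⟩) ?_ ?_ ?_ h
  · intro x hx
    obtain ⟨z, hz⟩ := (h1 (f x.1) (hfx x)).resolve_right hx
    exact ⟨_, fx_lub (⇑f) m ⟨s, hs⟩ (fr (⇑f) m x) z hz (hlub _ _ _ hs (hfx x) hz)⟩
  · intro w hw
    have h3 := hme _ (hW w hw)
    exact ⟨h3.1 (Set.mem_insert _ _), h3.1 (Set.mem_insert_of_mem _ rfl)⟩
  · intro v w hv hw hvw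
    have h3 := hme _ (hW v hv)
    have h4 := hme _ (hW w hw)
    refine h4.2 ?_
    rintro z (rfl | rfl)
    · exact h3.1 (by simp)
    · exact (h3.1 (by simp)).trans (f.monotone hvw)
  · intro x w hxw hx hw _
    have hlt : f x.1 < f w.1 := f.strictMono hxw
    obtain ⟨z, hz⟩ := h2 (f x.1) (f w.1) hlt (hfx x) (hfx w) hx _ (hme _ (hW w hw))
    exact ⟨_, fx_lub (⇑f) m ⟨me (f w.1), hmf _ (hfx w)⟩ (fr (⇑f) m x) z hz
      (hlub _ _ _ (hmf _ (hfx w)) (hfx x) hz)⟩

/-- The order dual of `auto_main`. -/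
theorem auto_main_dual (hfin : ∃ n : ℕ, ∀ c : Finset P, IsChain (· ≤ ·) (c : Set P) → c.card ≤ n)
    (f : P ≃o P) (m : ℕ) (s : P) (hs : (⇑f)^[m] s = s)
    (h1 : ∀ x : P, (⇑f)^[m] x = x →
      (∃ z : P, IsLUB ({s, x} : Set P) z) ∨ (∃ z : P, IsGLB ({s, x} : Set P) z))
    (h2 : ∀ x y : P, y < x → (⇑f)^[m] x = x → (⇑f)^[m] y = y →
      (¬ ∃ z : P, IsLUB ({s, x} : Set P) z) →
      ∀ a : P, IsLUB ({s, y} : Set P) a → ∃ z : P, IsGLB ({a, x} : Set P) z)
    (h : SlimOn (⇑f) {x : P | (⇑f)^[m] x = x} ∨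
      CoverTame {d : P | s < d ∧ (⇑f)^[m] d = d}) : ∃ x : P, f x = x := by
  obtain ⟨n, hn⟩ := hfin
  refine auto_main (P := Pᵒᵈ) ⟨n, fun c hc => hn c (by
    intro a ha b hb hab
    exact (hc ha hb hab).symm)⟩ f.dual m (OrderDual.toDual s) hs
    (fun x hx => (h1 (OrderDual.ofDual x) hx).symm)
    (fun x y hxy hx hy h3 a ha => h2 (OrderDual.ofDual x) (OrderDual.ofDual y) hxy hx hy h3
      (OrderDual.ofDual a) ha) ?_
  rcases h with h | h
  · exact Or.inl (slim_dual h)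
  · exact Or.inr (coverTame_dual _ h)

end auto

section mono

variable {P : Type u} [PartialOrder P]

theorem mono_main (hfin : ∃ n : ℕ, ∀ c : Finset P, IsChain (· ≤ ·) (c : Set P) → c.card ≤ n)
    (f : P → P) (hf : Monotone f) (m : ℕ) (s : P) (hs : f^[m] s ≤ s)
    (h1 : ∀ x : P, f^[m] x = x →
      (∃ z : P, IsGLB ({s, x} : Set P) z) ∨
        ∀ d : P, d ≤ s → f^[m] d = d → ∃ z : P, IsLUB ({d, x} : Set P) z)
    (h : SlimOn f {x : P | f^[m] x = x} ∨
      CoverTame {d : P | d < s ∧ f^[m] d = d}) : ∃ x : P, f x = x := by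
  classical
  have hg : Monotone f^[m] := hf.iterate m
  obtain ⟨s0, hs1, hs2, hs3⟩ := exists_down hfin f^[m] hg s hs
  -- the meets
  have hb : ∀ y : P, ∃ b : P, f^[m] b = b ∧ (f^[m] y = y → (∃ z : P, IsGLB ({s, y} : Set P) z) →
      b ≤ s ∧ b ≤ y ∧ ∀ w, f^[m] w = w → w ≤ s → w ≤ y → w ≤ b) := by
    intro y
    by_cases hy : f^[m] y = y ∧ ∃ z : P, IsGLB ({s, y} : Set P) z
    · obtain ⟨hy1, z, hz⟩ := hy
      have hzs : z ≤ s := hz.1 (Set.mem_insert _ _)
      have hzy : z ≤ y := hz.1 (Set.mem_insert_of_mem _ rfl)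
      have hgz : f^[m] z ≤ z := by
        refine hz.2 ?_
        rintro w (rfl | rfl)
        · exact (hg hzs).trans hs
        · exact (hg hzy).trans hy1.le
      obtain ⟨b, h3, h4, h5⟩ := exists_down hfin f^[m] hg z hgz
      refine ⟨b, h3, fun _ _ => ⟨h4.trans hzs, h4.trans hzy, ?_⟩⟩
      intro w hw hws hwy
      refine h5 w hw (hz.2 ?_)
      rintro v (rfl | rfl)
      · exact hws
      · exact hwy
    · exact ⟨s0, hs1, fun h3 h4 => absurd ⟨h3, h4⟩ hy⟩
  choose be0 hbe1 hbe2 using hb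
  -- the joins
  have hlub : ∀ d y : Fx f m, d.1 ≤ s → (¬ ∃ z : P, IsGLB ({s, y.1} : Set P) z) →
      ∃ z : Fx f m, IsLUB ({d, y} : Set (Fx f m)) z := by
    intro d y hd hy
    obtain ⟨u, hu⟩ := (h1 y.1 y.2).resolve_left hy d.1 hd d.2
    have hdu : d.1 ≤ u := hu.1 (Set.mem_insert _ _)
    have hyu : y.1 ≤ u := hu.1 (Set.mem_insert_of_mem _ rfl)
    have hgu : u ≤ f^[m] u := by
      refine hu.2 ?_
      rintro w (rfl | rfl)
      · exact d.2.symm.le.trans (hg hdu)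
      · exact y.2.symm.le.trans (hg hyu)
    obtain ⟨z, h3, h4, h5⟩ := exists_up hfin f^[m] hg u hgu
    refine ⟨⟨z, h3⟩, ?_, ?_⟩
    · rintro w (rfl | rfl)
      · exact hdu.trans h4
      · exact hyu.trans h4
    · intro w hw
      refine h5 w.1 w.2 (hu.2 ?_)
      rintro v (rfl | rfl)
      · exact hw (Set.mem_insert _ _)
      · exact hw (Set.mem_insert_of_mem _ rfl)
  have hfx : ∀ x : Fx f m, f^[m] (f x.1) = f x.1 := fun x => fx_map f m x.2
  have hW : ∀ w : Fx f m, w ∉ {x : Fx f m | ¬ ∃ z : P, IsGLB ({s, f x.1} : Set P) z} →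
      ∃ z : P, IsGLB ({s, f w.1} : Set P) z := by
    intro w hw
    simpa using hw
  refine main_fx hfin f hf m ⟨s0, hs1⟩
    {x : Fx f m | ¬ ∃ z : P, IsGLB ({s, f x.1} : Set P) z} ?_
    (fun w => ⟨be0 (f w.1), hbe1 _⟩) ?_ ?_ ?_ ?_
  · intro x hx
    exact hlub ⟨s0, hs1⟩ (fr f m x) hs2 hx
  · intro w hw
    obtain ⟨h3, h4, h5⟩ := hbe2 (f w.1) (hfx w) (hW w hw)
    exact ⟨hs3 _ (hbe1 _) h3, h4⟩
  · intro v w hv hw hvw
    obtain ⟨h3, h4, h5⟩ := hbe2 (f v.1) (hfx v) (hW v hv)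
    obtain ⟨h6, h7, h8⟩ := hbe2 (f w.1) (hfx w) (hW w hw)
    exact h8 _ (hbe1 _) h3 (h4.trans (hf hvw))
  · intro x w _ hx hw _
    obtain ⟨h3, h4, h5⟩ := hbe2 (f w.1) (hfx w) (hW w hw)
    exact hlub ⟨be0 (f w.1), hbe1 _⟩ (fr f m x) h3 hx
  · rcases h with h | h
    · exact Or.inl h
    · refine Or.inr (Helper73.FX.coverTame_mono ?_ h)
      rintro d ⟨hd1, hd2⟩
      exact ⟨lt_of_lt_of_le hd1 hs2, hd2⟩

/-- The order dual of `mono_main`. -/
theorem mono_main_dual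
    (hfin : ∃ n : ℕ, ∀ c : Finset P, IsChain (· ≤ ·) (c : Set P) → c.card ≤ n)
    (f : P → P) (hf : Monotone f) (m : ℕ) (s : P) (hs : s ≤ f^[m] s)
    (h1 : ∀ x : P, f^[m] x = x →
      (∃ z : P, IsLUB ({s, x} : Set P) z) ∨
        ∀ d : P, s ≤ d → f^[m] d = d → ∃ z : P, IsGLB ({d, x} : Set P) z)
    (h : SlimOn f {x : P | f^[m] x = x} ∨
      CoverTame {d : P | s < d ∧ f^[m] d = d}) : ∃ x : P, f x = x := by
  obtain ⟨n, hn⟩ := hfin
  refine mono_main (P := Pᵒᵈ) ⟨n, fun c hc => hn c (by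
    intro a ha b hb hab
    exact (hc ha hb hab).symm)⟩ (fun x => OrderDual.toDual (f (OrderDual.ofDual x)))
    (fun a b hab => hf hab) m (OrderDual.toDual s) hs
    (fun x hx => h1 (OrderDual.ofDual x) hx) ?_
  rcases h with h | h
  · exact Or.inl (slim_dual h)
  · exact Or.inr (coverTame_dual _ h)

end mono

section fin

/-- the alternatives for the points of period dividing `m` -/
def Few {P : Type u} [PartialOrder P] (f : P → P) (m : ℕ) (E : Set P) : Prop :=
  (∃ p k : ℕ, p.Prime ∧ m = p ^ k) ∨ SlimOn f {x : P | f^[m] x = x} ∨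
    Thin {d : P | d ∈ E ∧ f^[m] d = d}

lemma few_cases {P : Type u} [PartialOrder P] (f : P → P) (m : ℕ) (E : Set P) (h : Few f m E)
    (hno : ¬ ∃ x, f x = x) :
    SlimOn f {x : P | f^[m] x = x} ∨ CoverTame {d : P | d ∈ E ∧ f^[m] d = d} := by
  rcases h with ⟨p, k, hp, rfl⟩ | h | h
  · refine Or.inl (Or.inl ⟨p, hp, ?_⟩)
    have : {x : P | x ∈ {x : P | f^[p ^ k] x = x} ∧ ∃ j : ℕ, ¬ p ∣ j ∧ f^[j] x = x} = ∅ := by
      rw [Set.eq_empty_iff_forall_notMem]
      rintro x ⟨h1, j, h2, h3⟩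
      apply hno
      refine ⟨x, ?_⟩
      have h4 : Function.IsPeriodicPt f (p ^ k) x := h1
      have h5 : Function.IsPeriodicPt f j x := h3
      have h6 := h4.gcd h5
      have h7 : Nat.gcd (p ^ k) j = 1 :=
        Nat.Coprime.pow_left k ((Nat.Prime.coprime_iff_not_dvd hp).2 h2)
      rw [h7] at h6
      exact h6
    rw [this]
    exact thin_empty
  · exact Or.inl h
  · exact Or.inr (coverTame_of_thin h)

section auto

variable {P : Type u} [PartialOrder P]

theorem auto_final (hfin : ∃ n : ℕ, ∀ c : Finset P, IsChain (· ≤ ·) (c : Set P) → c.card ≤ n)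
    (f : P ≃o P) (m : ℕ) (s : P) (hs : (⇑f)^[m] s ≤ s ∨ s ≤ (⇑f)^[m] s)
    (h1 : ∀ x : P, (⇑f)^[m] x = x →
      (∃ z : P, IsLUB ({s, x} : Set P) z) ∨ (∃ z : P, IsGLB ({s, x} : Set P) z))
    (h2 : ∀ x y : P, x < y → (⇑f)^[m] x = x → (⇑f)^[m] y = y →
      (¬ ∃ z : P, IsGLB ({s, x} : Set P) z) →
      ∀ a : P, IsGLB ({s, y} : Set P) a → ∃ z : P, IsLUB ({a, x} : Set P) z)
    (h : Few (⇑f) m {d : P | d < s}) : ∃ x : P, f x = x := by
  by_contra hno
  exact hno (auto_main hfin f m s (auto_eq hfin (⇑f) f.monotone f.injective m s hs) h1 h2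
    (few_cases _ _ _ h hno))

theorem auto_final_dual
    (hfin : ∃ n : ℕ, ∀ c : Finset P, IsChain (· ≤ ·) (c : Set P) → c.card ≤ n)
    (f : P ≃o P) (m : ℕ) (s : P) (hs : (⇑f)^[m] s ≤ s ∨ s ≤ (⇑f)^[m] s)
    (h1 : ∀ x : P, (⇑f)^[m] x = x →
      (∃ z : P, IsLUB ({s, x} : Set P) z) ∨ (∃ z : P, IsGLB ({s, x} : Set P) z))
    (h2 : ∀ x y : P, y < x → (⇑f)^[m] x = x → (⇑f)^[m] y = y →
      (¬ ∃ z : P, IsLUB ({s, x} : Set P) z) →
      ∀ a : P, IsLUB ({s, y} : Set P) a → ∃ z : P, IsGLB ({a, x} : Set P) z)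
    (h : Few (⇑f) m {d : P | s < d}) : ∃ x : P, f x = x := by
  by_contra hno
  exact hno (auto_main_dual hfin f m s (auto_eq hfin (⇑f) f.monotone f.injective m s hs) h1 h2
    (few_cases _ _ _ h hno))

theorem mono_final (hfin : ∃ n : ℕ, ∀ c : Finset P, IsChain (· ≤ ·) (c : Set P) → c.card ≤ n)
    (f : P → P) (hf : Monotone f) (m : ℕ) (s : P) (hs : f^[m] s ≤ s)
    (h1 : ∀ x : P, f^[m] x = x →
      (∃ z : P, IsGLB ({s, x} : Set P) z) ∨
        ∀ d : P, d ≤ s → f^[m] d = d → ∃ z : P, IsLUB ({d, x} : Set P) z)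
    (h : Few f m {d : P | d < s}) : ∃ x : P, f x = x := by
  by_contra hno
  exact hno (mono_main hfin f hf m s hs h1 (few_cases _ _ _ h hno))

theorem mono_final_dual
    (hfin : ∃ n : ℕ, ∀ c : Finset P, IsChain (· ≤ ·) (c : Set P) → c.card ≤ n)
    (f : P → P) (hf : Monotone f) (m : ℕ) (s : P) (hs : s ≤ f^[m] s)
    (h1 : ∀ x : P, f^[m] x = x →
      (∃ z : P, IsLUB ({s, x} : Set P) z) ∨
        ∀ d : P, s ≤ d → f^[m] d = d → ∃ z : P, IsGLB ({d, x} : Set P) z)
    (h : Few f m {d : P | s < d}) : ∃ x : P, f x = x := by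
  by_contra hno
  exact hno (mono_main_dual hfin f hf m s hs h1 (few_cases _ _ _ h hno))

end auto

end fin

end Pool.Agent.Helper73.PQ
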